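import Pool.Agent.Lib.H67C.GenFin

/-!
# MP_997af3_pr, Q1: the circular law fails for every law with an atom at zero

For every `0 < ε < 1/6` there is one sequence of profiles obeying (1) and (2) such that for EVERY
i.i.d. array whose law has an atom at zero the eigenvalue distribution of `U_n ⊙ M_n` tends weakly
in probability to the Dirac mass at `0` (as `n → ∞` through all integers).

The profile: adjacency matrix of a `k`-regular digraph divided by `k`, `k` about `n^a` with
`2 ε < a < 1/3`. A path of layers of `k` vertices, consecutive layers completely joined (almost all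
vertices), is closed through `k^2` parallel chains of about `n^b` clusters of `k` vertices linked by
single arcs; with high probability every chain is cut by a vanishing entry, no directed cycle meets
the path, and the path contributes only zero eigenvalues. See `Pool/Agent/Lib/H67C/README.md`.
-/

set_option autoImplicit false

open MeasureTheory ProbabilityTheory Filter

namespace Pool.Agent.Results.MP_997af3_pr.AtomAtZero

theorem result (ε : ℝ) (hε0 : 0 < ε) (hε : ε < 1 / 6) :
    ∃ U : ∀ n : ℕ, Matrix (Fin n) (Fin n) ℝ,
      (∀ n i j, 0 ≤ U n i j) ∧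
      (∀ n (j : Fin n), ∑ i, U n i j ^ 2 = 1) ∧
      (∀ n (i : Fin n), ∑ j, U n i j ^ 2 = 1) ∧
      (∀ δ : ℝ, 0 < δ → ∀ᶠ n in atTop, ∀ i j : Fin n, U n i j * (n : ℝ) ^ ε ≤ δ) ∧
      ∀ (Ω : Type) [MeasurableSpace Ω] (P : Measure Ω) [IsProbabilityMeasure P]
        (X : ℕ × ℕ → Ω → ℂ),
        iIndepFun X P →
        (∀ p, IdentDistrib (X p) (X (0, 0)) P P) →
        P {ω | X (0, 0) ω = 0} ≠ 0 →
        ∀ f : BoundedContinuousFunction ℂ ℝ, ∀ δ : ℝ, 0 < δ →
          Tendsto
            (fun n : ℕ => P {ω | δ <
              |((Matrix.charpoly (Matrix.of (fun i j : Fin n =>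
                    ((U n i j : ℝ) : ℂ) * X (i.val, j.val) ω))).roots.map
                    (fun z => f z)).sum / (n : ℝ) - f 0|})
            atTop (nhds 0) :=
  Pool.Agent.Lib.H67C.main_atom ε hε0 hε

end Pool.Agent.Results.MP_997af3_pr.AtomAtZero
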