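import Pool.Agent.Lib.Circ2.Transfer2

/-!
# Circular law for doubly stochastic variance profiles with vanishing largest entry

For every profile sequence `U n` with nonnegative entries, unit rows and columns in the Euclidean
norm and largest entry tending to `0`, and every i.i.d. array of centred complex (or real) random
variables of unit variance with `P (‖ξ - a‖ ≤ t) ≤ K * t ^ β` for all `a` and all `t > 0`, the
empirical spectral distribution of the entrywise product converges weakly in probability to the
uniform law of the unit disc.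
-/

set_option autoImplicit false

open MeasureTheory ProbabilityTheory Filter

namespace Pool.Agent.Results.MP_997af3_pr.SmallBallCircularLaw

theorem result :
    ∀ (U : ∀ n : ℕ, Matrix (Fin n) (Fin n) ℝ),
      (∀ n i j, 0 ≤ U n i j) →
      (∀ n (j : Fin n), ∑ i, U n i j ^ 2 = 1) →
      (∀ n (j : Fin n), ∑ i, U n j i ^ 2 = 1) →
      (∀ δ : ℝ, 0 < δ → ∀ᶠ n in atTop, ∀ i j : Fin n, U n i j ≤ δ) →
      ∀ (Ω : Type) [MeasurableSpace Ω] (P : Measure Ω) [IsProbabilityMeasure P]
        (X : ℕ × ℕ → Ω → ℂ),
        (∀ p, Measurable (X p)) →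
        iIndepFun X P →
        (∀ p, IdentDistrib (X p) (X (0, 0)) P P) →
        MemLp (X (0, 0)) 2 P →
        ∫ ω, X (0, 0) ω ∂P = 0 →
        ∫ ω, ‖X (0, 0) ω‖ ^ 2 ∂P = 1 →
        (∃ K β : ℝ, 0 < β ∧ ∀ (a : ℂ) (t : ℝ), 0 < t →
          P {ω | ‖X (0, 0) ω - a‖ ≤ t} ≤ ENNReal.ofReal (K * t ^ β)) →
        ∀ f : BoundedContinuousFunction ℂ ℝ, ∀ δ : ℝ, 0 < δ →
          Tendsto
            (fun n : ℕ => P {ω | δ <
              |((Matrix.charpoly (Matrix.of (fun i j : Fin n =>
                    ((U n i j : ℝ) : ℂ) * X (i.val, j.val) ω))).roots.map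
                    (fun z => f z)).sum / (n : ℝ)
                - (1 / Real.pi) * ∫ z in Metric.closedBall (0 : ℂ) 1, f z|})
            atTop (nhds 0) := by
  intro U h0 hcol hrow hsmall Ω _ P _ X hX hind hid h2 hmean hvar hball
  exact Pool.Agent.Circ2.final2 U h0 hcol hrow hsmall Ω P X hX hind hid h2 hmean hvar hball

end Pool.Agent.Results.MP_997af3_pr.SmallBallCircularLaw
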